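import Pool.Agent.Lib.MP_8c874d_gt.Meas

set_option autoImplicit false

/-!
MP_8c874d_gt, question Q2 (and Q1): rich graphs without uncountable cliques.
Text with all proofs: /team-store/MP_8c874d_gt_Q2.md
-/

namespace Pool.Agent.Lib.MP_8c874d_gt.Q2

open Set Cardinal Filter

/-- Every finite Borel measure on `X` satisfies `μ(B) = sup {μ(K) : K ⊆ B compact}` for all Borel
sets `B`. -/
def RadonSpace (X : Type) [TopologicalSpace X] : Prop :=
  ∀ μ : @MeasureTheory.Measure X (borel X), μ Set.univ < ⊤ →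
    ∀ B : Set X, @MeasurableSet X (borel X) B →
      μ B = ⨆ (K : Set X) (_ : K ⊆ B ∧ IsCompact K), μ K

/-- `I` is a well-order whose order type is a regular uncountable cardinal. -/
structure KLike (I : Type) [LinearOrder I] : Prop where
  wf : WellFoundedLT I
  reg : (#I).IsRegular
  unc : ℵ₀ < #I
  init : ∀ i : I, #(Set.Iio i) < #I

section
variable {I : Type} [LinearOrder I]

/-- A clique: any two elements `a < b` are adjacent. -/
def IsClq (adj : I → I → Prop) (A : Set I) : Prop := ∀ a ∈ A, ∀ b ∈ A, a < b → adj a b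

/-- The graph is rich: if `F i`, `F' i` are finite sets above `i`, and `F i` is below `F' i'` for
`i < i'`, then for some `i < i'` all elements of `F i` are adjacent to all elements of `F' i'`. -/
def Rich (adj : I → I → Prop) : Prop :=
  ∀ F F' : I → Finset I, (∀ i, ∀ a ∈ F i, i < a) → (∀ i, ∀ a ∈ F' i, i < a) →
    (∀ i i', i < i' → ∀ a ∈ F i, ∀ b ∈ F' i', a < b) →
    ∃ i i', i < i' ∧ ∀ a ∈ F i, ∀ b ∈ F' i', adj a b

end

/-- `β > 0` is a limit point of the set `S` of ordinals. -/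
def LimPt (S : Set Ordinal.{0}) (β : Ordinal.{0}) : Prop :=
  0 < β ∧ ∀ γ < β, ∃ σ ∈ S, γ < σ ∧ σ < β

/-- `E` is a closed unbounded subset of the cardinal `κ`. -/
def ClubIn (κ : Cardinal.{0}) (E : Set Ordinal.{0}) : Prop :=
  (∀ α ∈ E, α < κ.ord) ∧ LimPt E κ.ord ∧ ∀ β < κ.ord, LimPt E β → β ∈ E

/-- `f α`, `α < κ`, are functions on the natural numbers, strictly increasing modulo finite sets,
and `{f α n : α < κ}` has cardinality less than `κ` for each `n`. -/
def IncSeq (κ : Cardinal.{0}) (f : Ordinal.{0} → ℕ → Ordinal.{0}) : Prop :=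
  (∀ α β, α < β → β < κ.ord → ∀ᶠ n in atTop, f α n < f β n) ∧
    ∀ n, #((fun α => f α n) '' Set.Iio κ.ord) < Cardinal.lift.{1} κ

/-- `δ` is a good point of `f`: for some unbounded `B ⊆ δ` and some `m`, the sequences
`f β n`, `β ∈ B`, are strictly increasing for all `n ≥ m`. -/
def GoodPt (f : Ordinal.{0} → ℕ → Ordinal.{0}) (δ : Ordinal.{0}) : Prop :=
  ∃ B : Set Ordinal.{0}, B ⊆ Set.Iio δ ∧ (∀ γ < δ, ∃ β ∈ B, γ < β) ∧
    ∃ m : ℕ, ∀ n ≥ m, ∀ β ∈ B, ∀ β' ∈ B, β < β' → f β n < f β' n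

/-- Jensen's square principle for the cardinal `μ`: closed unbounded sets `C α ⊆ α` of
order type at most `μ`, for limit ordinals `α < μ⁺`, with `C β = C α ∩ β` for the limit points
`β < α` of `C α`. -/
def Square (μ : Cardinal.{0}) : Prop :=
  ∃ C : Ordinal.{0} → Set Ordinal.{0}, ∀ α : Ordinal.{0}, α < (Order.succ μ).ord →
    Order.IsSuccLimit α →
    C α ⊆ Set.Iio α ∧ LimPt (C α) α ∧ (∀ β < α, LimPt (C α) β → β ∈ C α) ∧
    Ordinal.type (fun a b : C α => a < b) ≤ Ordinal.lift.{1} μ.ord ∧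
    ∀ β < α, LimPt (C α) β → C β = C α ∩ Set.Iio β

/-- Some `μ`-square sequence has sets `C α` of cardinality less than `μ`. -/
def Square' (μ : Cardinal.{0}) : Prop :=
  ∃ C : Ordinal.{0} → Set Ordinal.{0}, ∀ α : Ordinal.{0}, α < (Order.succ μ).ord →
    Order.IsSuccLimit α →
    C α ⊆ Set.Iio α ∧ LimPt (C α) α ∧ (∀ β < α, LimPt (C α) β → β ∈ C α) ∧
    #(C α) < Cardinal.lift.{1} μ ∧ ∀ β < α, LimPt (C α) β → C β = C α ∩ Set.Iio β

/-! ## modules -/

/-- GQ: a rich graph without uncountable cliques gives a compact (H) space which is not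
hereditarily alpha-realcompact. -/
def SpecGQ : Prop :=
  ∀ (I : Type) [LinearOrder I], KLike I → NoUf I → ∀ adj : I → I → Prop, Rich adj →
    (∀ A : Set I, IsClq adj A → A.Countable) →
    ∃ (X : Type) (_ : TopologicalSpace X), CompactSpace X ∧ T2Space X ∧ ConditionH X ∧
      ¬ HereditarilyAlphaRealcompact X

/-- RA: Radon spaces are hereditarily alpha-realcompact. -/
def SpecRA : Prop :=
  ∀ (X : Type) [TopologicalSpace X] [T2Space X], RadonSpace X → HereditarilyAlphaRealcompact X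

/-- RI: sequences increasing modulo finite, with few values at every place, give rich graphs. -/
def SpecRI : Prop :=
  ∀ (I : Type) [LinearOrder I], KLike I → ∀ f : I → ℕ → Ordinal.{0},
    (∀ a b, a < b → ∀ᶠ n in atTop, f a n < f b n) →
    (∀ n, ∃ J : Set I, #J < #I ∧ ∀ a, ∃ b ∈ J, f b n = f a n) →
    Rich (fun a b => ∃ n, f b n < f a n)

/-- BB: an unbounded family of at most `ℵ₁` functions gives a rich graph without uncountable
cliques. -/
def SpecBB : Prop :=
  ∀ H : Set (ℕ → ℕ), #H ≤ aleph 1 → (¬ ∃ g : ℕ → ℕ, ∀ h ∈ H, ∀ᶠ n in atTop, h n ≤ g n) →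
    ∃ (I : Type) (_ : LinearOrder I), KLike I ∧ #I = aleph 1 ∧ ∃ f : I → ℕ → ℕ,
      (∀ a b, a < b → ∀ᶠ n in atTop, f a n < f b n) ∧
      ∀ A : Set I, (∀ a ∈ A, ∀ b ∈ A, a < b → ∃ n, f b n < f a n) → A.Countable

/-- SQ: square gives an increasing sequence all of whose points of cofinality `ω₁` are good. -/
def SpecSQ : Prop :=
  ∀ μ : Cardinal.{0}, ℵ₀ < μ → μ.ord.cof = ℵ₀ → Square' μ →
    ∃ f : Ordinal.{0} → ℕ → Ordinal.{0}, IncSeq (Order.succ μ) f ∧
      ∀ δ < (Order.succ μ).ord, δ.cof = aleph 1 → GoodPt f δ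

/-- SM: square sequences can be thinned out. -/
def SpecSM : Prop :=
  ∀ μ : Cardinal.{0}, ℵ₀ < μ → μ.ord.cof = ℵ₀ → Square μ → Square' μ

/-- GS: an increasing sequence with a closed unbounded set of points such that all its points of
cofinality `ω₁` are good has a subsequence without uncountable pairwise incomparable sets. -/
def SpecGS : Prop :=
  ∀ (κ : Cardinal.{0}) (f : Ordinal.{0} → ℕ → Ordinal.{0}) (E : Set Ordinal.{0}),
    κ.IsRegular → aleph 1 < κ → IncSeq κ f → ClubIn κ E →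
    (∀ δ ∈ E, δ.cof = aleph 1 → GoodPt f δ) →
    ∃ (I : Type) (_ : LinearOrder I), KLike I ∧ #I = κ ∧
      ∃ g : I → ℕ → Ordinal.{0},
      (∀ a b, a < b → ∀ᶠ n in atTop, g a n < g b n) ∧
      (∀ n, ∃ J : Set I, #J < #I ∧ ∀ a, ∃ b ∈ J, g b n = g a n) ∧
      ∀ A : Set I, (∀ a ∈ A, ∀ b ∈ A, a < b → ∃ n, g b n < g a n) → A.Countable

/-- NM: below the first measurable cardinal every countably complete ultrafilter is principal. -/
def SpecNM : Prop :=
  ∀ S : Type, (∀ ν ≤ #S, ¬ IsMeasurableCardinal ν) → NoUf S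

end Pool.Agent.Lib.MP_8c874d_gt.Q2
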